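import Pool.Agent.L0h94.SP.StmF

/-!
# UNI: units with prescribed absolute values, up to a constant
-/

set_option autoImplicit false

open Polynomial IsDedekindDomain NumberField
open scoped Classical

namespace Pool.Agent.L0h34.SP

open Pool.Agent.L0h94.SP (S_UNI)

open NumberField.Units NumberField.Units.dirichletUnitTheorem in
/-- (UNI) Dirichlet: the unit lattice spans the trace zero space. -/
theorem t_UNI : S_UNI := by
  classical
  intro F _ _
  obtain ⟨R, hR⟩ : ∃ R : ℝ, R = ∑ i, ‖(basisUnitLattice F).ofZLatticeBasis ℝ (unitLattice F) i‖ :=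
    ⟨_, rfl⟩
  have hR0 : 0 ≤ R := by
    rw [hR]
    exact Finset.sum_nonneg fun i _ => norm_nonneg _
  obtain ⟨r, hr⟩ : ∃ r : ℝ, r = (Fintype.card (InfinitePlace F) : ℝ) := ⟨_, rfl⟩
  have hr1 : 1 ≤ r := by
    rw [hr]
    exact_mod_cast Fintype.card_pos
  have hrR : R ≤ r * R := by nlinarith
  have hrR0 : 0 ≤ r * R := by positivity
  refine ⟨Real.exp (r * R), Real.one_le_exp hrR0, ?_⟩
  intro T hT hprod
  set x : logSpace F := fun w => (w.1.mult : ℝ) * Real.log (T w.1) with hx
  have hmem : (ZSpan.floor ((basisUnitLattice F).ofZLatticeBasis ℝ (unitLattice F)) x : logSpace F) ∈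
      unitLattice F := by
    have h := (ZSpan.floor ((basisUnitLattice F).ofZLatticeBasis ℝ (unitLattice F)) x).2
    exact (Module.Basis.ofZLatticeBasis_span ℝ (unitLattice F) (basisUnitLattice F)).le h
  obtain ⟨ε, -, hε⟩ := Submodule.mem_map.1 hmem
  have hfr : ‖x - logEmbedding F ε‖ ≤ R := by
    have h := ZSpan.norm_fract_le ((basisUnitLattice F).ofZLatticeBasis ℝ (unitLattice F)) x
    rw [ZSpan.fract_apply, ← hε, ← hR] at h
    exact h
  obtain ⟨u, hu⟩ : ∃ u : (𝓞 F)ˣ, ε = Additive.ofMul u := ⟨ε.toMul, rfl⟩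
  rw [hu] at hfr
  have hpos : ∀ v : InfinitePlace F, 0 < v ((u : 𝓞 F) : F) := fun v => by
    rw [InfinitePlace.pos_iff]
    exact Units.coe_ne_zero u
  have hm1 : ∀ v : InfinitePlace F, (1 : ℝ) ≤ v.mult := fun v => by
    exact_mod_cast v.mult_pos
  -- the differences of the logarithms
  have hw : ∀ w : {w : InfinitePlace F // w ≠ w₀},
      |(w.1.mult : ℝ) * (Real.log (T w.1) - Real.log (w.1 ((u : 𝓞 F) : F)))| ≤ R := fun w => by
    have h := (norm_le_pi_norm (x - logEmbedding F (Additive.ofMul u)) w).trans hfr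
    rw [Pi.sub_apply, logEmbedding_component, Real.norm_eq_abs, hx, ← mul_sub] at h
    exact h
  have hsum : ∑ v : InfinitePlace F, (v.mult : ℝ) *
      (Real.log (T v) - Real.log (v ((u : 𝓞 F) : F))) = 0 := by
    have h1 := sum_mult_mul_log u
    have h2 : ∑ v : InfinitePlace F, (v.mult : ℝ) * Real.log (T v) = 0 := by
      have h3 := congrArg Real.log hprod
      rw [Real.log_prod (fun v _ => pow_ne_zero _ (hT v).ne'), Real.log_one] at h3
      simpa [Real.log_pow] using h3
    simp only [mul_sub, Finset.sum_sub_distrib]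
    rw [h2, h1, sub_zero]
  have hw0 : |((w₀ : InfinitePlace F).mult : ℝ) *
      (Real.log (T w₀) - Real.log ((w₀ : InfinitePlace F) ((u : 𝓞 F) : F)))| ≤ r * R := by
    rw [Fintype.sum_eq_add_sum_subtype_ne _ (w₀ : InfinitePlace F)] at hsum
    have h3 : ((w₀ : InfinitePlace F).mult : ℝ) *
      (Real.log (T w₀) - Real.log ((w₀ : InfinitePlace F) ((u : 𝓞 F) : F))) =
      -∑ w : {w : InfinitePlace F // w ≠ w₀}, (w.1.mult : ℝ) *
        (Real.log (T w.1) - Real.log (w.1 ((u : 𝓞 F) : F))) := by linarith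
    rw [h3, abs_neg]
    refine (Finset.abs_sum_le_sum_abs _ _).trans ?_
    refine (Finset.sum_le_sum fun w _ => hw w).trans ?_
    rw [Finset.sum_const, nsmul_eq_mul, Finset.card_univ]
    refine mul_le_mul_of_nonneg_right ?_ hR0
    rw [hr]
    exact_mod_cast Fintype.card_subtype_le _
  have hall : ∀ v : InfinitePlace F,
      |Real.log (T v) - Real.log (v ((u : 𝓞 F) : F))| ≤ r * R := by
    intro v
    have h1 : |(v.mult : ℝ) * (Real.log (T v) - Real.log (v ((u : 𝓞 F) : F)))| ≤ r * R := by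
      by_cases hv : v = w₀
      · rw [hv]
        exact hw0
      · exact (hw ⟨v, hv⟩).trans hrR
    rw [abs_mul, abs_of_nonneg (by positivity : (0 : ℝ) ≤ v.mult)] at h1
    refine le_trans ?_ h1
    exact le_mul_of_one_le_left (abs_nonneg _) (hm1 v)
  refine ⟨u, fun v => ⟨?_, ?_⟩⟩
  · have h1 := (abs_le.1 (hall v)).2
    rw [← Real.exp_log (hT v), ← Real.exp_log (hpos v), ← Real.exp_add]
    exact Real.exp_le_exp.2 (by linarith)
  · have h1 := (abs_le.1 (hall v)).1
    rw [← Real.exp_log (hT v), ← Real.exp_log (hpos v), ← Real.exp_add]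
    exact Real.exp_le_exp.2 (by linarith)

end Pool.Agent.L0h34.SP
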